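import Pool.Agent.X171.SD.Space

/-!
# The square of a strong `d`-space need not be a strong `d`-space

Negative answer to Q1 of MP_e2e219_gt, already for two factors which are equal.

The space is the disjoint sum of two spaces `X_Φ`, `X_Γ` for disjoint dense sets `Φ`, `Γ` of free
ultrafilters on `ℕ`. The points of `X_Φ` are a chain `c 0 < c 1 < ...` with supremum `w`, a point
`x`, points `m k` (`k ∈ ℕ`) above `x` and above `c n` for `n ≤ k`, and points `p`, for `p ∈ Φ`, above
`x` and `w`; an open set containing `p` contains `m k` for `p`-almost all `k`.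
-/

set_option autoImplicit false

open Set

namespace Pool.Agent.Results.MP_e2e219_gt.SquareFails

/-- The set `↑x` of the points `y` with `x ≤ y` in the specialization order (`x ≤ y` iff `x` is in
the closure of `{y}`). -/
def up {X : Type*} [TopologicalSpace X] (x : X) : Set X := {y | x ∈ closure {y}}

/-- `D` is a non-empty directed subset for the specialization order. -/
def IsDirectedSet {X : Type*} [TopologicalSpace X] (D : Set X) : Prop :=
  D.Nonempty ∧ ∀ a ∈ D, ∀ b ∈ D, ∃ e ∈ D, a ∈ closure {e} ∧ b ∈ closure {e}

/-- `X` is a strong `d`-space: it is `T₀` and, for every directed `D`, every `x` and every open `U`,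
if the intersection of `⋂ d ∈ D, ↑d` with `↑x` is contained in `U`, then `↑d ∩ ↑x ⊆ U` for some
`d ∈ D`. -/
def StrongDSpace (X : Type*) [TopologicalSpace X] : Prop :=
  T0Space X ∧ ∀ D : Set X, IsDirectedSet D → ∀ x : X, ∀ U : Set X, IsOpen U →
    (⋂ d ∈ D, up d) ∩ up x ⊆ U → ∃ d ∈ D, up d ∩ up x ⊆ U

/-- There is a strong `d`-space `Y` whose square (the product of two copies of `Y`, with the
product topology) is not a strong `d`-space. -/
theorem result : ∃ (Y : Type) (_ : TopologicalSpace Y),
    StrongDSpace Y ∧ ¬ StrongDSpace (Bool → Y) :=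
  Pool.Agent.X171.SD.exists_square

end Pool.Agent.Results.MP_e2e219_gt.SquareFails
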